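import Pool.Agent.Y514.TL.Mass
import Pool.Agent.Y514.TL.Geo
import Pool.Agent.Y514.TL.Body

/-!
# Convex hulls of a body and a translate of it by a vector of any given length

For a convex body `K` of `ℝ ^ d` and `t > 0` let `cLen μ t K` be the maximal normalised volume of
the convex hull of the union of `K` and a translate of `K` by a vector whose length in the relative
norm of `K` is at most `t`. For `t = 2` this is `c_tr(K)`.
-/

set_option autoImplicit false
open MeasureTheory Set Pointwise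

namespace Pool.Agent.Results.MP_ccd96b_co.AllLengths

variable {d : ℕ}

/-- A convex body: a compact convex set with nonempty interior. -/
structure IsConvexBody (K : Set (Fin d → ℝ)) : Prop where
  isCompact : IsCompact K
  convex : Convex ℝ K
  interior_nonempty : (interior K).Nonempty

/-- The unit ball `M = (K - K)/2` of the relative norm of `K`. -/
def relBall (K : Set (Fin d → ℝ)) : Set (Fin d → ℝ) := (1 / 2 : ℝ) • (K - K)

/-- The volume `κ_n` of the Euclidean unit ball of `ℝ ^ n`. -/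
noncomputable def kappa (n : ℕ) : ENNReal := volume {x : Fin n → ℝ | ∑ i, x i ^ 2 ≤ 1}

/-- The polar set of `M`. -/
def polar (M : Set (Fin d → ℝ)) : Set (Fin d → ℝ) := {y | ∀ x ∈ M, ∑ i, x i * y i ≤ 1}

/-- The Holmes-Thompson volume of `S` for the norm with unit ball `M`. -/
noncomputable def htVol (M S : Set (Fin d → ℝ)) : ENNReal :=
  volume (polar M) / kappa d * volume S

/-- The cross-polytope with centre `c` and vertices `c + v i`, `c - v i`. -/
def crossPolytope (c : Fin d → ℝ) (v : Fin d → Fin d → ℝ) : Set (Fin d → ℝ) :=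
  convexHull ℝ (Set.range (fun i => c + v i) ∪ Set.range (fun i => c - v i))

/-- The maximal volume of a cross-polytope inscribed in `M`. -/
noncomputable def maxCross (M : Set (Fin d → ℝ)) : ENNReal :=
  ⨆ (c : Fin d → ℝ) (v : Fin d → Fin d → ℝ) (_ : crossPolytope c v ⊆ M),
    volume (crossPolytope c v)

/-- Gromov's mass of `S` for the norm with unit ball `M`. -/
noncomputable def massVol (M S : Set (Fin d → ℝ)) : ENNReal :=
  ENNReal.ofReal (2 ^ d / d.factorial) / maxCross M * volume S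

/-- The parallelotope `{c + ∑ sᵢ vᵢ : |sᵢ| ≤ 1}`. -/
def parallelotope (c : Fin d → ℝ) (v : Fin d → Fin d → ℝ) : Set (Fin d → ℝ) :=
  {x | ∃ s : Fin d → ℝ, (∀ i, |s i| ≤ 1) ∧ x = c + ∑ i, s i • v i}

/-- The minimal volume of a parallelotope containing `M`. -/
noncomputable def minBox (M : Set (Fin d → ℝ)) : ENNReal :=
  ⨅ (c : Fin d → ℝ) (v : Fin d → Fin d → ℝ) (_ : M ⊆ parallelotope c v),
    volume (parallelotope c v)

/-- Gromov's mass* (the Benson volume) of `S` for the norm with unit ball `M`. -/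
noncomputable def massStarVol (M S : Set (Fin d → ℝ)) : ENNReal :=
  ENNReal.ofReal (2 ^ d) / minBox M * volume S

/-- `c_tr(K)` for the normalised volume `μ`: the maximal volume, in the relative norm of `K`, of
the convex hull of the union of `K` and a translate of `K` that meets `K`. -/
noncomputable def cTr (μ : Set (Fin d → ℝ) → Set (Fin d → ℝ) → ENNReal) (K : Set (Fin d → ℝ)) :
    ENNReal :=
  ⨆ (p : Fin d → ℝ) (_ : ((p +ᵥ K) ∩ K).Nonempty), μ (relBall K) (convexHull ℝ (K ∪ (p +ᵥ K)))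

/-- The maximal volume, in the relative norm of `K`, of the convex hull of the union of `K` and a
translate `p + K` for which the relative norm of `p` is at most `t`. -/
noncomputable def cLen (μ : Set (Fin d → ℝ) → Set (Fin d → ℝ) → ENNReal) (t : ℝ)
    (K : Set (Fin d → ℝ)) : ENNReal :=
  ⨆ (p : Fin d → ℝ) (_ : p ∈ t • relBall K), μ (relBall K) (convexHull ℝ (K ∪ (p +ᵥ K)))

/-- `w_a(z) = √(1 + 4 z (1-z)^n / a)` -/
noncomputable def w (n : ℕ) (a z : ℝ) : ℝ := √(1 + 4 * (z * (1 - z) ^ n) / a)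

theorem body_iff (K : Set (Fin d → ℝ)) : Helper481.MS.IsConvexBody K ↔ IsConvexBody K :=
  ⟨fun h => ⟨h.1, h.2, h.3⟩, fun h => ⟨h.1, h.2, h.3⟩⟩

/-- a translate of `K` by `p` meets `K` if and only if the relative norm of `p` is at most `2` -/
theorem meets_iff (K : Set (Fin d → ℝ)) (p : Fin d → ℝ) :
    ((p +ᵥ K) ∩ K).Nonempty ↔ p ∈ (2 : ℝ) • relBall K := by
  constructor
  · rintro ⟨x, ⟨y, hy, hyx⟩, hx⟩
    have hyx' : p + y = x := hyx
    refine ⟨(1 / 2 : ℝ) • (x - y), ⟨x - y, ⟨x, hx, y, hy, rfl⟩, rfl⟩, ?_⟩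
    show (2 : ℝ) • ((1 / 2 : ℝ) • (x - y)) = p
    rw [← hyx']
    module
  · rintro ⟨_, ⟨_, ⟨x, hx, y, hy, rfl⟩, rfl⟩, h⟩
    have h' : (2 : ℝ) • ((1 / 2 : ℝ) • (x - y)) = p := h
    refine ⟨x, ⟨y, hy, ?_⟩, hx⟩
    show p + y = x
    rw [← h']
    module

theorem cTr_eq (μ : Set (Fin d → ℝ) → Set (Fin d → ℝ) → ENNReal) (K : Set (Fin d → ℝ)) :
    cTr μ K = cLen μ 2 K := by
  unfold cTr cLen
  exact iSup_congr fun p => iSup_congr_Prop (meets_iff K p) fun _ => rfl

/-- **Theorem.** Let `d ≥ 2`, `n = d - 1` and `t > 0`.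

* For `t = 2`, `cLen μ t K` is `c_tr(K)`, for every normalised volume.
* The equation `log (t / (2 a)) = (1/2) ∫_0^1 (1 - 1/w_a(z)) dz/z` has exactly one positive
  solution `a`; it is smaller than `t / 2`.
* For this `a`, the maximum of `c^HT_t(K)` over all convex bodies `K` of `ℝ ^ d` is
  `4 κ_n² / κ_d * a (1 + V)²` with `V = (1/a) ∫_0^1 (1-z)^n / w_a(z) dz`.
* The maximum of `c^m_t` is `κ_d + t κ_{d-1}`, attained by the Euclidean ball.
* The maximum of `c^{m*}_t` is `2 ^ d (1 + t d / 2)`, attained by the cube. -/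
theorem result (d : ℕ) (hd : 2 ≤ d) :
    (∀ (μ : Set (Fin d → ℝ) → Set (Fin d → ℝ) → ENNReal) (K : Set (Fin d → ℝ)),
      cLen μ 2 K = cTr μ K) ∧
    ∀ t : ℝ, 0 < t →
    (∃! a : ℝ, 0 < a ∧
      Real.log (t / (2 * a)) = 1 / 2 * ∫ z in (0:ℝ)..1, (1 - 1 / w (d - 1) a z) / z) ∧
    (∀ a : ℝ, 0 < a →
      Real.log (t / (2 * a)) = 1 / 2 * ∫ z in (0:ℝ)..1, (1 - 1 / w (d - 1) a z) / z →
      a < t / 2 ∧
      IsGreatest {c : ENNReal | ∃ K : Set (Fin d → ℝ), IsConvexBody K ∧ cLen htVol t K = c}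
        (4 * kappa (d - 1) ^ 2 / kappa d * ENNReal.ofReal
          (a * (1 + 1 / a * ∫ z in (0:ℝ)..1, (1 - z) ^ (d - 1) / w (d - 1) a z) ^ 2))) ∧
    (IsGreatest {c : ENNReal | ∃ K : Set (Fin d → ℝ), IsConvexBody K ∧ cLen massVol t K = c}
      (kappa d + ENNReal.ofReal t * kappa (d - 1)) ∧
      cLen massVol t {x : Fin d → ℝ | ∑ i, x i ^ 2 ≤ 1} =
        kappa d + ENNReal.ofReal t * kappa (d - 1)) ∧
    (IsGreatest {c : ENNReal | ∃ K : Set (Fin d → ℝ), IsConvexBody K ∧ cLen massStarVol t K = c}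
      (ENNReal.ofReal (2 ^ d * (1 + t * d / 2))) ∧
      cLen massStarVol t {x : Fin d → ℝ | ∀ i, |x i| ≤ 1} =
        ENNReal.ofReal (2 ^ d * (1 + t * d / 2))) := by
  refine ⟨fun μ K => (cTr_eq μ K).symm, fun t ht => ?_⟩
  obtain ⟨n, rfl⟩ : ∃ n, d = n + 1 := ⟨d - 1, by omega⟩
  rw [Nat.add_sub_cancel]
  have hn : 1 ≤ n := by omega
  have hσ : 0 < t / 2 := by positivity
  have hiff : ∀ a : ℝ, (0 < a ∧
      Real.log (t / (2 * a)) = 1 / 2 * ∫ z in (0:ℝ)..1, (1 - 1 / w n a z) / z) ↔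
      Y514.TL.IsCritS n (t / 2) a := by
    intro a
    unfold Y514.TL.IsCritS H356R3.HT.Qf H356R3.HT.gz w
    refine and_congr_right fun ha => ?_
    have e : Real.log (t / (2 * a)) = Real.log (1 / a) + Real.log (t / 2) := by
      rw [← Real.log_mul (by positivity) (by positivity)]
      congr 1
      field_simp
    rw [e]
    constructor
    · intro h; linarith
    · intro h; linarith
  refine ⟨(existsUnique_congr hiff).2 (Y514.TL.crit_uniqueS hn hσ), ?_, ⟨?_, ?_⟩, ⟨?_, ?_⟩⟩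
  · intro a ha0 ha
    have hc := (hiff a).1 ⟨ha0, ha⟩
    refine ⟨Y514.TL.crit_lt hn hσ hc, ?_⟩
    have hup : ∀ K : Set (Fin (n + 1) → ℝ), IsConvexBody K →
        cLen htVol t K ≤ 4 * kappa n ^ 2 / kappa (n + 1) * ENNReal.ofReal
          (a * (1 + 1 / a * ∫ z in (0:ℝ)..1, (1 - z) ^ n / w n a z) ^ 2) :=
      fun K hK => iSup_le fun p => iSup_le fun hp =>
        Y514.TL.ht_upper hn ht hc ((body_iff K).2 hK) hp
    obtain ⟨K, hK, p, hp, hle⟩ := Y514.TL.ht_lower hn ht hc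
    refine ⟨⟨K, (body_iff K).1 hK, le_antisymm (hup K ((body_iff K).1 hK)) ?_⟩, ?_⟩
    · exact le_iSup_of_le p (le_iSup_of_le hp hle)
    · rintro _ ⟨K', hK', rfl⟩
      exact hup K' hK'
  · obtain ⟨p, hp, hle⟩ := Y514.TL.mass_ballT (n := n) ht.le
    have hup : ∀ K : Set (Fin (n + 1) → ℝ), IsConvexBody K →
        cLen massVol t K ≤ kappa (n + 1) + ENNReal.ofReal t * kappa n :=
      fun K hK => iSup_le fun q => iSup_le fun hq =>
        Y514.TL.mass_upperT ((body_iff K).2 hK) ht.le hq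
    refine ⟨⟨Helper481.MB.eball (n + 1), (body_iff _).1 (MassMax.eball_body _),
      le_antisymm (hup _ ((body_iff _).1 (MassMax.eball_body _)))
        (le_iSup_of_le p (le_iSup_of_le hp hle))⟩, ?_⟩
    rintro _ ⟨K', hK', rfl⟩
    exact hup K' hK'
  · obtain ⟨p, hp, hle⟩ := Y514.TL.mass_ballT (n := n) ht.le
    refine le_antisymm (iSup_le fun q => iSup_le fun hq =>
      Y514.TL.mass_upperT (MassMax.eball_body _) ht.le hq)
      (le_iSup_of_le p (le_iSup_of_le hp hle))
  · obtain ⟨p, hp, hle⟩ := Y514.TL.star_cubeT (n := n) ht.le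
    have e : (2:ℝ) ^ (n + 1) * (1 + t * ((n + 1 : ℕ) : ℝ) / 2) =
        2 ^ (n + 1) * (1 + t * (n + 1) / 2) := by push_cast; ring
    rw [e]
    have hup : ∀ K : Set (Fin (n + 1) → ℝ), IsConvexBody K →
        cLen massStarVol t K ≤ ENNReal.ofReal (2 ^ (n + 1) * (1 + t * (n + 1) / 2)) :=
      fun K hK => iSup_le fun q => iSup_le fun hq =>
        Y514.TL.star_upperT ((body_iff K).2 hK) ht.le hq
    refine ⟨⟨Helper481.MB.cube (n + 1), (body_iff _).1 (MassMax.cube_body _),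
      le_antisymm (hup _ ((body_iff _).1 (MassMax.cube_body _)))
        (le_iSup_of_le p (le_iSup_of_le hp hle))⟩, ?_⟩
    rintro _ ⟨K', hK', rfl⟩
    exact hup K' hK'
  · obtain ⟨p, hp, hle⟩ := Y514.TL.star_cubeT (n := n) ht.le
    have e : (2:ℝ) ^ (n + 1) * (1 + t * ((n + 1 : ℕ) : ℝ) / 2) =
        2 ^ (n + 1) * (1 + t * (n + 1) / 2) := by push_cast; ring
    rw [e]
    exact le_antisymm (iSup_le fun q => iSup_le fun hq =>
      Y514.TL.star_upperT (MassMax.cube_body _) ht.le hq)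
      (le_iSup_of_le p (le_iSup_of_le hp hle))

end Pool.Agent.Results.MP_ccd96b_co.AllLengths
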